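import Pool.Agent.Q51.LW.SharpAs

/-!
# MP_b0c12c_nt: the constant in Cramér's model under approximate independence of order `15 log X`

Cramér's conjecture `limsup (p_{n+1} - p_n) / (log p_n) ^ 2 = 1` comes from the model in which the primes are replaced by a random
set `A` of integers `n ≥ 3` with `P(n ∈ A) = 1 / log n` and independent events `n ∈ A`. We show how little of the independence is
used for the constant `1`: it is enough that for all large `X` and every set `S` of at most `⌈15 log X⌉` integers in `[√X, X]` the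
probability of `S ⊆ A` is `∏ 1 / log n` with a relative error of at most `X ^ (-4)`. (The window `[√X, X]` matters in the almost
sure statements: the condition for all sets of at most `⌈15 log X⌉` integers in `[3, X]`, for all large `X`, would concern every
finite set `S` for all large `X` and so force full independence, while the condition here concerns only sets `S` of at most
`15 log X` integers with `max S ≤ X ≤ (1 + min S) ^ 2`.)

The proof compares the probability that an interval contains no element of `A` with the product `∏ (1 - 1 / log n)` by the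
partial sums of inclusion and exclusion with `⌈15 log X⌉` terms; the lower bound uses a second moment for the number of the
empty blocks.
-/

namespace Pool.Agent.Results.MP_b0c12c_nt.CramerConstant

open MeasureTheory Filter Pool.Agent.Q51.LI Pool.Agent.Q51.LW

/-- **The constant in Cramér's model with approximate independence of order `15 log X`.** -/
theorem result :
    -- (1) probabilities
    (∀ δ : ℝ, 0 < δ → δ ≤ 1 / 4 → ∀ᶠ X : ℕ in atTop, ∀ Y : ℕ, 3 ≤ Y → Y * Y ≤ X →
      ∀ (Ω : Type) (_ : MeasurableSpace Ω) (P : Measure Ω), IsProbabilityMeasure P → ∀ E : ℕ → Set Ω,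
        Pool.Agent.Q51.LW.IsNearlyRandomSet P ⌈15 * Real.log X⌉₊ Y X ((X : ℝ) ^ (-4 : ℝ)) E →
          P.real {ω | ¬ HasGapIn E Y X ((1 - δ) * Real.log X ^ 2) ω} ≤ (X : ℝ) ^ (-(δ / 2)) ∧
          P.real {ω | HasGapIn E Y X ((1 + δ) * Real.log X ^ 2) ω} ≤ (X : ℝ) ^ (-(δ / 2))) ∧
    -- (2), (3) almost sure statements
    (∀ (Ω : Type) (_ : MeasurableSpace Ω) (P : Measure Ω), IsProbabilityMeasure P → ∀ E : ℕ → Set Ω,
      (∀ᶠ X : ℕ in atTop,
        Pool.Agent.Q51.LW.IsNearlyRandomSet P ⌈15 * Real.log X⌉₊ (Nat.sqrt X) X ((X : ℝ) ^ (-4 : ℝ)) E) →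
        ∀ᵐ ω ∂P,
          (∀ δ : ℝ, 0 < δ → ∀ᶠ X : ℕ in atTop,
            HasGap E X ((1 - δ) * Real.log X ^ 2) ω ∧ ¬ HasGap E X ((1 + δ) * Real.log X ^ 2) ω) ∧
          (∀ δ : ℝ, 0 < δ → ∀ᶠ a : ℕ in atTop, ∀ b : ℕ, Consecutive E ω a b →
            (b : ℝ) - a ≤ (1 + δ) * Real.log a ^ 2) ∧
          (∀ δ : ℝ, 0 < δ → ∀ A : ℕ, ∃ a b : ℕ, A ≤ a ∧ Consecutive E ω a b ∧
            (1 - δ) * Real.log a ^ 2 ≤ (b : ℝ) - a)) := by
  refine ⟨?_, ?_⟩
  · intro δ hδ hδ'
    have h1 : Tendsto (fun X : ℕ => Real.log X) atTop atTop := Real.tendsto_log_atTop.comp tendsto_natCast_atTop_atTop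
    filter_upwards [h1.eventually_ge_atTop (10 ^ 11 / δ ^ 3), eventually_ge_atTop 3] with X hX hX3 Y hY hYX Ω _ P _ E hE
    have hX0 : (0 : ℝ) < X := by positivity
    have e : (X : ℝ) ^ (-(δ / 2)) = Real.exp (-(δ * Real.log X / 2)) := by
      rw [Real.rpow_def_of_pos hX0]
      congr 1
      ring
    rw [nat_ge X hX3] at hE
    rw [e]
    exact ⟨Pool.Agent.Q51.LW.sharp_lower hY hYX hδ hδ' hX (Nat.le_ceil _) (Real.exp_pos _).le le_rfl hE,
      Pool.Agent.Q51.LW.sharp_upper hY hδ hδ' hX (Nat.le_ceil _) (Real.exp_pos _).le le_rfl hE⟩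
  · intro Ω _ P _ E hE
    filter_upwards [Pool.Agent.Q51.LW.ae_sharp E hE] with ω hω
    refine ⟨hω, fun δ hδ => ?_, fun δ hδ A => ?_⟩
    · exact consecutive_upper E ω (fun δ' hδ' => (hω δ' hδ').mono fun X hX => hX.2) δ hδ
    · have h2 := (hω (min δ (1 / 2)) (lt_min hδ (by norm_num))).mono fun X hX => hX.1
      obtain ⟨a, b, h3, h4, h5⟩ := consecutive_lower E ω (min δ (1 / 2)) (lt_of_le_of_lt (min_le_right _ _) (by norm_num)) h2 A
      refine ⟨a, b, h3, h4, le_trans ?_ h5⟩
      exact mul_le_mul_of_nonneg_right (by linarith [min_le_left δ (1 / 2)]) (sq_nonneg _)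

end Pool.Agent.Results.MP_b0c12c_nt.CramerConstant
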