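import Pool.Agent.Q20.HB.Cross

set_option autoImplicit false

/-!
# MP_b0c12c_nt: `L` and the sums of `κ log p` consecutive gaps

Let `p_0 < p_1 < ...` be the primes, `L = limsup (p_{m+1} - p_m) / (log p_m)²` and let `B κ m` be the sum of the
`⌊κ log p_m⌋ + 1` consecutive gaps which begin at `p_m`; its average size is `κ (log p_m)²`. By Maier's matrix
method `B κ m` is larger than `t (log p_m)²` in every range `(X/2, 3 X)` if `t < 2 e^(-γ) κ`, and smaller than
`s (log p_m)²` in every range `(X, 6 X)` if `s > κ / 1.07`. When the index grows by one, `B κ m` drops at most by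
the gap `p_{m+1} - p_m`. So the sizes between `s` and `t` can be skipped at the scale `X` only at a gap which is
larger than `(t - s - ε) (log p_m)²`. Hence every interval between `κ / 1.07` and `2 e^(-γ) κ` which is longer than
`L` contains quotients `B κ m / (log p_m)²` at every scale, and if `L` is finite, then the averages of
`κ log p` consecutive gaps come, for large `κ`, close to `θ log p` for all `θ` between `1 / 1.07` and `2 e^(-γ)`.

The lemmas on Maier's matrix are those of `Pool.Agent.H510R2.Maier` and of helper46's `BlocksOfGaps` and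
`CramerWindowCounts`.
-/

open Filter Topology

namespace Pool.Agent.Results.MP_b0c12c_nt.HolesInBlockSums

/-- the primes in increasing order, `P 0 = 2` -/
noncomputable def P (m : ℕ) : ℕ := Nat.nth Nat.Prime m

/-- the sum of the `⌊κ log p_m⌋ + 1` consecutive differences of primes which begin at `p_m` -/
noncomputable def B (κ : ℝ) (m : ℕ) : ℝ := (P (m + 1 + ⌊κ * Real.log (P m)⌋₊) : ℝ) - P m

/-- the limit superior of the problem -/
noncomputable def L : EReal :=
  limsup (fun m : ℕ => (((((P (m + 1) : ℝ) - P m) / (Real.log (P m)) ^ 2 : ℝ)) : EReal)) atTop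

/-- Let `κ > 0` and `κ / 1.07 < s < t < 2 e^(-γ) κ`.
(1) For every `ε > 0` and all large `X` there is an `m` with `X < p_m < 36 X` such that
`s (log p_m)² < B κ m < t (log p_m)²`, or such that the gap after `p_m` is larger than
`(t - s - ε) (log p_m)²` and `B κ m ≥ t (log p_m)²`, `B κ (m + 1) ≤ s (log p_{m+1})²`.
(2) If `L < t - s`, then for all large `X` there is an `m` of the first kind. So `L ≥ t - s` if the interval
`(s, t)` contains only finitely many of the numbers `B κ m / (log p_m)²`.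
(3) If `L` is finite, then for all `θ` between `1 / 1.07` and `2 e^(-γ)` and `ε > 0` there is `κ₀` such that for all
`κ ≥ κ₀` and all large `X` there is an `m` with `X < p_m < 36 X` and `|B κ m / (κ (log p_m)²) - θ| < ε`. -/
theorem result :
    (∀ κ s t ε : ℝ, 0 < κ → κ < 1.07 * s → s < t → t < 2 * Real.exp (-Real.eulerMascheroniConstant) * κ → 0 < ε →
      ∀ᶠ X : ℝ in atTop, ∃ m : ℕ, X < P m ∧ (P m : ℝ) < 36 * X ∧
        ((s * (Real.log (P m)) ^ 2 < B κ m ∧ B κ m < t * (Real.log (P m)) ^ 2) ∨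
          (t * (Real.log (P m)) ^ 2 ≤ B κ m ∧ B κ (m + 1) ≤ s * (Real.log (P (m + 1))) ^ 2 ∧
            (t - s - ε) * (Real.log (P m)) ^ 2 < (P (m + 1) : ℝ) - P m))) ∧
    (∀ κ s t : ℝ, 0 < κ → κ < 1.07 * s → s < t → t < 2 * Real.exp (-Real.eulerMascheroniConstant) * κ →
      (L < ((t - s : ℝ) : EReal) → ∀ᶠ X : ℝ in atTop, ∃ m : ℕ, X < P m ∧ (P m : ℝ) < 36 * X ∧
        s * (Real.log (P m)) ^ 2 < B κ m ∧ B κ m < t * (Real.log (P m)) ^ 2) ∧
      ({m : ℕ | s * (Real.log (P m)) ^ 2 < B κ m ∧ B κ m < t * (Real.log (P m)) ^ 2}.Finite →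
        ((t - s : ℝ) : EReal) ≤ L)) ∧
    (L < ⊤ → ∀ θ ε : ℝ, 1 < 1.07 * θ → θ < 2 * Real.exp (-Real.eulerMascheroniConstant) → 0 < ε →
      ∃ κ₀ : ℝ, ∀ κ : ℝ, κ₀ ≤ κ → ∀ᶠ X : ℝ in atTop, ∃ m : ℕ, X < P m ∧ (P m : ℝ) < 36 * X ∧
        |B κ m / (κ * (Real.log (P m)) ^ 2) - θ| < ε) := by
  have hno := Pool.Agent.Q20.HB.no_hole
  refine ⟨fun κ s t ε h1 h2 h3 h4 h5 => Pool.Agent.Q20.HB.dichotomy κ s t ε h1 h2 h3 h4 h5,
    fun κ s t h1 h2 h3 h4 => ⟨fun h5 => hno κ s t h1 h2 h3 h4 h5, fun hfin => ?_⟩,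
    fun hL θ ε h1 h2 h3 => Pool.Agent.Q20.HB.averages hL θ ε h1 h2 h3⟩
  by_contra hlt
  push Not at hlt
  have h5 : ∀ᶠ X : ℝ in atTop, ∃ m : ℕ, X < P m ∧ (P m : ℝ) < 36 * X ∧
        s * (Real.log (P m)) ^ 2 < B κ m ∧ B κ m < t * (Real.log (P m)) ^ 2 := hno κ s t h1 h2 h3 h4 hlt
  obtain ⟨M, hM⟩ := hfin.bddAbove
  obtain ⟨X, ⟨m, hm1, -, hm3⟩, hX⟩ := (h5.and (eventually_ge_atTop ((P M : ℝ)))).exists
  have hm : m ≤ M := hM hm3
  have h6 : P m ≤ P M := (Nat.nth_le_nth Nat.infinite_setOfPred_prime).2 hm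
  have h7 : (P m : ℝ) ≤ P M := by exact_mod_cast h6
  linarith

end Pool.Agent.Results.MP_b0c12c_nt.HolesInBlockSums
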