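import Pool.Agent.Q318.RG.LegD

/-!
# Patterns of quadratic residues and nonresidues inside record prime gaps

For every `0 < ε ≤ 1` there are `κ, c > 0` such that for all large primes `p`, all `k ≤ c log p`, all
shifts `a_1, …, a_k` which are distinct modulo `p`, all signs `η_1, …, η_k` and all intervals
`[A, A + N)` in `[0, p)` with `N ≥ p^(1/2 + ε)`: at least `N p^(-ε)` integers `x` of the interval have
the prescribed pattern `((x + a_j) / p) = η_j` (`j = 1, …, k`) of Legendre symbols and are isolated on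
the record scale, that is, no prime lies at distance at most
`κ log p (log₂ p)² log₄ p / (log₃ p)²` of `x`.

So every block of `≤ c log p` quadratic residues and nonresidues occurs in the sequence of Legendre
symbols of every interval of length `p^(1/2 + ε)` in the middle of prime gaps of record length; the
number `c log p` of prescribed symbols is optimal up to `c`, and intervals shorter than `p^(1/2)` are
out of reach for `k ≥ 2` even without the condition on prime gaps.

Proof: the indicator function of the pattern is a combination of products of Legendre symbols. The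
sums of these products over the interval, twisted by additive characters with denominators
`q ≤ p^η`, are compared with their shifts by the multiples of `q`, and the second moments of the
short sums over the shifts are bounded by Weil's bound for quadratic characters of polynomials
(library `Pool.Agent.H341R2.Sharp.weil_sharp`). Then the criterion `Pool.Agent.Q46.MH.crit_many` of
helper46 is used, which rests on the record covering criterion `Pool.Agent.Y961.JR.critJ` of the
starting repository. Design and proof of the rest: helper318 (`Pool.Agent.Q318.RG`).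
-/

set_option autoImplicit false

namespace Pool.Agent.Results.MP_b0c12c_nt.LegendrePatterns

open Filter

/-- the record scale `log x (log₂ x)² log₄ x / (log₃ x)²` -/
noncomputable def scale (x : ℝ) : ℝ :=
  Real.log x * (Real.log (Real.log x)) ^ 2 * Real.log (Real.log (Real.log (Real.log x))) /
    (Real.log (Real.log (Real.log x))) ^ 2

/-- no prime at distance at most `K` of `n` -/
def Isolated (K : ℝ) (n : ℕ) : Prop := ∀ q : ℕ, q.Prime → K < |(q : ℝ) - n|

/-- **Patterns of Legendre symbols at isolated integers.** -/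
theorem result : ∀ ε : ℝ, 0 < ε → ε ≤ 1 → ∃ κ : ℝ, 0 < κ ∧ ∃ c : ℝ, 0 < c ∧ ∃ p₀ : ℕ,
    ∀ (p : ℕ) [Fact p.Prime], p₀ ≤ p → ∀ k : ℕ, (k : ℝ) ≤ c * Real.log p →
      ∀ a : Fin k → ℤ, (∀ i j, i ≠ j → ¬ (p : ℤ) ∣ a i - a j) →
      ∀ η : Fin k → ℤ, (∀ j, η j = 1 ∨ η j = -1) →
      ∀ A N : ℕ, A + N ≤ p → (p : ℝ) ^ (1 / 2 + ε) ≤ N →
        (N : ℝ) * (p : ℝ) ^ (-ε) ≤ ({x : ℕ | (A ≤ x ∧ x < A + N) ∧
          (∀ j, legendreSym p (x + a j) = η j) ∧ Isolated (κ * scale p) x}.ncard : ℝ) := by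
  intro ε h0 h1
  obtain ⟨κ, hκ, hev⟩ := Pool.Agent.Q318.RG.main_pat (ε / 2) (by linarith) (by linarith)
  obtain ⟨M₀, hM₀⟩ := eventually_atTop.1 (hev.and
    ((Pool.Agent.W147.PS.ev_pow (ε / 2 / 32) (1 / 2) 4 (by linarith)).and
    ((Pool.Agent.W147.PS.ev_pow (1 / 2 + ε / 2) (1 / 2 + ε) 2 (by linarith)).and
    ((Pool.Agent.W147.PS.ev_pow (-ε) (-(ε / 2)) 2 (by linarith)).and
    ((tendsto_rpow_atTop (show (0 : ℝ) < 1 / 2 by norm_num)).eventually_ge_atTop 4)))))
  refine ⟨κ, hκ, ε / 2 / 32, by positivity, ⌈max M₀ 3⌉₊, ?_⟩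
  intro p _ hp k hk a ha η hη A N hAN hN
  have hpM : max M₀ 3 ≤ (p : ℝ) := (Nat.le_ceil _).trans (by exact_mod_cast hp)
  have hp3 : (3 : ℝ) ≤ p := (le_max_right _ _).trans hpM
  have hp0 : (0 : ℝ) < p := by linarith
  have hp1 : (1 : ℝ) ≤ p := by linarith
  obtain ⟨hmain, e1, e2, e3, e4⟩ := hM₀ p ((le_max_left _ _).trans hpM)
  set A' : ℕ := A + N / 2 with hA'
  set N' : ℕ := N - N / 2 with hN'
  have hNp : (p : ℝ) ^ (1 / 2 : ℝ) ≤ N := by
    refine le_trans ?_ hN
    exact Real.rpow_le_rpow_of_exponent_le hp1 (by linarith)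
  have hN4 : (4 : ℝ) ≤ N := e4.trans hNp
  have hN2 : (N : ℝ) / 2 ≤ N' := by
    have h2 : N ≤ 2 * N' := by omega
    have : (N : ℝ) ≤ 2 * N' := by exact_mod_cast h2
    linarith
  have hA2 : (N : ℝ) / 4 ≤ A' := by
    have h4 : 4 ≤ N := by exact_mod_cast hN4
    have h2 : N ≤ 4 * A' := by omega
    have : (N : ℝ) ≤ 4 * A' := by exact_mod_cast h2
    linarith
  have hkp : (2 : ℝ) ^ k ≤ (p : ℝ) ^ (ε / 2 / 32) := by
    rw [Real.rpow_def_of_pos hp0, ← Real.rpow_natCast, Real.rpow_def_of_pos (by norm_num)]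
    apply Real.exp_le_exp.2
    have h2 : Real.log 2 ≤ 1 := by
      have := Real.log_two_lt_d9
      linarith
    calc Real.log 2 * k ≤ 1 * k := mul_le_mul_of_nonneg_right h2 (Nat.cast_nonneg _)
      _ ≤ Real.log p * (ε / 2 / 32) := by linarith
  have hinj : Function.Injective (fun j => ((a j : ℤ) : ZMod p)) := by
    intro i j hij
    by_contra hne
    apply ha i j hne
    rw [← ZMod.intCast_zmod_eq_zero_iff_dvd, Int.cast_sub, sub_eq_zero]
    exact hij
  have hηR : ∀ j, ((η j : ℤ) : ℝ) = 1 ∨ ((η j : ℤ) : ℝ) = -1 := by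
    intro j
    rcases hη j with h | h
    · left; exact_mod_cast h
    · right; exact_mod_cast h
  have hfin := hmain p rfl k hkp (fun j => ((a j : ℤ) : ZMod p)) hinj (fun j => ((η j : ℤ) : ℝ)) hηR A' N'
    (by omega) (by linarith) (by linarith)
  have hlow : (N : ℝ) * (p : ℝ) ^ (-ε) ≤ (N' : ℝ) * (p : ℝ) ^ (-(ε / 2)) := by
    have h2 : (0 : ℝ) ≤ (p : ℝ) ^ (-(ε / 2)) := Real.rpow_nonneg hp0.le _
    calc (N : ℝ) * (p : ℝ) ^ (-ε) = (N : ℝ) / 2 * (2 * (p : ℝ) ^ (-ε)) := by ring
      _ ≤ (N : ℝ) / 2 * (p : ℝ) ^ (-(ε / 2)) := mul_le_mul_of_nonneg_left e3 (by linarith)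
      _ ≤ _ := mul_le_mul_of_nonneg_right hN2 h2
  refine hlow.trans (hfin.trans ?_)
  have hsub : (fun x : ℕ => A' + x) '' {x : ℕ | x ∈ Pool.Agent.Q318.RG.pat (fun j => ((a j : ℤ) : ZMod p))
      (fun j => ((η j : ℤ) : ℝ)) A' N' ∧ Pool.Agent.Q46.MH.Iso (κ * Pool.Agent.W147.PS.ff p)
        (fun _ : Fin 1 => ((A' + x : ℕ) : ℤ))} ⊆
      {x : ℕ | (A ≤ x ∧ x < A + N) ∧ (∀ j, legendreSym p (x + a j) = η j) ∧ Isolated (κ * scale p) x} := by
    rintro y ⟨x, ⟨hx, hI⟩, rfl⟩
    unfold Pool.Agent.Q318.RG.pat at hx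
    rw [Finset.mem_filter, Finset.mem_range] at hx
    simp only [Set.mem_ofPred_eq]
    refine ⟨⟨by omega, by omega⟩, fun j => ?_, ?_⟩
    · have h2 := hx.2 j
      have h3 : (quadraticChar (ZMod p) (((A' + x : ℕ) : ZMod p) + ((a j : ℤ) : ZMod p)) : ℤ) = η j :=
        Int.cast_injective (α := ℝ) h2
      rw [legendreSym, ← h3]
      push_cast
      rfl
    · intro q hq
      have h2 := hI 0 q hq
      have h3 : (((A' + x : ℕ) : ℤ) : ℝ) = ((A' + x : ℕ) : ℝ) := by push_cast; rfl
      rw [h3] at h2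
      exact h2
  have hfinite : {x : ℕ | (A ≤ x ∧ x < A + N) ∧ (∀ j, legendreSym p (x + a j) = η j) ∧
      Isolated (κ * scale p) x}.Finite :=
    (Set.finite_Ico A (A + N)).subset fun x hx => hx.1
  have hcard := Set.ncard_le_ncard hsub hfinite
  rw [Set.ncard_image_of_injective _ (add_right_injective A')] at hcard
  exact_mod_cast hcard

end Pool.Agent.Results.MP_b0c12c_nt.LegendrePatterns
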