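import Pool.Agent.Q46.MH.Hyp

/-!
# Record prime gaps around both coordinates of points of modular hyperbolas

For every `0 < ε ≤ 1` there is `κ > 0` such that for all large primes `p`, all `c` prime to `p` and all intervals
`I`, `J` in `[0, p)` with `|I| |J| ≥ p^(3/2 + ε)` - the range in which Weil's bound for Kloosterman sums shows that the
modular hyperbola `x y = c mod p` has about `|I| |J| / p` points in the box `I × J` - at least `|I| |J| p^(-1 - ε)` of the
points `(x, y)` of the hyperbola in the box have BOTH coordinates isolated on the record scale: no prime lies at distance at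
most `κ log p (log₂ p)² log₄ p / (log₃ p)²` of `x`, and none of `y`.  So an integer `x` and its inverse modulo `p` lie in the
middle of prime gaps of record length at the same time, for both in prescribed intervals as short as `p^(3/4 + ε)`.

Design and proof: helper46 (modules `Pool.Agent.Q46.MH.*`: the completion of sums over boxes and the Kloosterman sums), on
the covering criterion for vectors of integers of the starting repository (`Pool.Agent.Y961.JR.critJ`) and its Weil bound
for Kloosterman sums (`Pool.Agent.H498R2`).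
-/

set_option autoImplicit false

namespace Pool.Agent.Results.MP_b0c12c_nt.ModularHyperbolas

/-- the record scale `log x (log₂ x)² log₄ x / (log₃ x)²` -/
noncomputable def scale (x : ℝ) : ℝ :=
  Real.log x * (Real.log (Real.log x)) ^ 2 * Real.log (Real.log (Real.log (Real.log x))) /
    (Real.log (Real.log (Real.log x))) ^ 2

/-- no prime at distance at most `K` of `n` -/
def Isolated (K : ℝ) (n : ℕ) : Prop := ∀ q : ℕ, q.Prime → K < |(q : ℝ) - n|

/-- **Isolated points of modular hyperbolas.** For all large primes `p`, all `c` prime to `p` and all intervals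
`[A, A + M)` and `[B, B + N)` in `[0, p)` with `M N ≥ p^(3/2 + ε)`, at least `M N p^(-1 - ε)` of the points `(x, y)` of the
box with `x y = c mod p` have both `x` and `y` isolated on the record scale. -/
theorem result : ∀ ε : ℝ, 0 < ε → ε ≤ 1 → ∃ κ : ℝ, 0 < κ ∧ ∃ p₀ : ℕ, ∀ p : ℕ, p₀ ≤ p → p.Prime →
    ∀ c : ℤ, ¬ (p : ℤ) ∣ c → ∀ A M B N : ℕ, A + M ≤ p → B + N ≤ p → (p : ℝ) ^ (3 / 2 + ε) ≤ (M : ℝ) * N →
      ∃ G : Finset (ℕ × ℕ), (M : ℝ) * N / p * (p : ℝ) ^ (-ε) ≤ G.card ∧
        ∀ z ∈ G, (A ≤ z.1 ∧ z.1 < A + M) ∧ (B ≤ z.2 ∧ z.2 < B + N) ∧ (p : ℤ) ∣ z.1 * z.2 - c ∧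
          Isolated (κ * scale p) z.1 ∧ Isolated (κ * scale p) z.2 :=
  fun ε h0 h1 => Pool.Agent.Q46.MH.hyperbola ε h0 h1

end Pool.Agent.Results.MP_b0c12c_nt.ModularHyperbolas
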